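import Mathlib

/-! The covering of a triangle: barycentric coordinates, exact inequalities. -/

namespace Pool.Agent.Helper85.Ell

/-- The sorted case. -/
theorem tri_sorted (α β γ : ℝ) (hα : 0 ≤ α) (h1 : α ≤ β) (h2 : β ≤ γ) (hs : α + β + γ = 1) :
    243 / 256 * (α ^ 2 + α * β + β ^ 2) ≤ 1 / 4 ∨
    729 / 256 * α ^ 2 + 243 / 256 * (γ - β) ^ 2 / (11 / 125) ^ 2 ≤ 1 ∨
    729 / 256 * γ ^ 2 + 243 / 256 * (β - α) ^ 2 / (11 / 125) ^ 2 ≤ 1 := by
  obtain ⟨u, hu⟩ : ∃ u, u = γ - β := ⟨_, rfl⟩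
  obtain ⟨w, hw⟩ : ∃ w, w = β - α := ⟨_, rfl⟩
  have hu0 : 0 ≤ u := by linarith
  have hw0 : 0 ≤ w := by linarith
  have ht : 0 ≤ 1 - u - 2 * w := by linarith
  have eα : α = (1 - u - 2 * w) / 3 := by linarith
  have eβ : β = (1 - u + w) / 3 := by linarith
  have eγ : γ = (1 + 2 * u + w) / 3 := by linarith
  have e1 : γ - β = u := hu.symm
  have e2 : β - α = w := hw.symm
  have key1 : (2 - 2 * u - w) ^ 2 + 3 * w ^ 2 ≤ 256 / 81 →
      243 / 256 * (α ^ 2 + α * β + β ^ 2) ≤ 1 / 4 := by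
    intro h
    rw [eα, eβ]
    nlinarith
  rw [e1, e2]
  -- the point `P1 = (161/2000, 81/1250)`
  by_cases hw1 : w ≤ 81 / 1250
  · -- below the level of `P1`
    -- chord from `(1/9, 0)` to `P1`
    by_cases hc : (u - 1 / 9) * (81 / 1250) ≤ (161 / 2000 - 1 / 9) * w
    · -- inside the quadrilateral : third ellipse
      right; right
      have hL : γ ≤ 0.4087 := by rw [eγ]; linarith
      have hγ : 0 ≤ γ := by linarith
      have e3 : 243 / 256 * w ^ 2 / (11 / 125) ^ 2 = (243 / 256 * 15625 / 121) * w ^ 2 := by ring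
      rw [e3]
      nlinarith [mul_nonneg hγ (sub_nonneg.2 hL), mul_nonneg hw0 (sub_nonneg.2 hw1)]
    · left
      push Not at hc
      apply key1
      have hX0 : 0 ≤ 2 - 2 * u - w := by linarith
      have hX : 2 - 2 * u - w ≤ 16 / 9 - 0.0552 * w := by linarith
      have h3 : (2 - 2 * u - w) ^ 2 ≤ (16 / 9 - 0.0552 * w) ^ 2 := pow_le_pow_left₀ hX0 hX 2
      nlinarith [mul_nonneg hw0 (sub_nonneg.2 hw1)]
  · push Not at hw1
    by_cases hc : u * (3 / 10 - 81 / 1250) ≤ (161 / 2000) * (3 / 10 - w)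
    · right; left
      have e3 : 243 / 256 * u ^ 2 / (11 / 125) ^ 2 = (243 / 256 * 15625 / 121) * u ^ 2 := by ring
      rw [eα, e3]
      nlinarith [mul_nonneg hu0 (sub_nonneg.2 hw1.le), mul_nonneg hu0 (sub_nonneg.2 hc),
        mul_nonneg (sub_nonneg.2 hw1.le) (sub_nonneg.2 hc)]
    · left
      push Not at hc
      apply key1
      have hX0 : 0 ≤ 2 - 2 * u - w := by linarith
      rcases le_total w (3 / 10) with h | h
      · have hX : 2 - 2 * u - w ≤ 17 / 10 + (1.7742 - 1.7) / 0.2352 * (3 / 10 - w) := by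
          linarith
        have h3 := pow_le_pow_left₀ hX0 hX 2
        nlinarith [mul_nonneg (sub_nonneg.2 h) (sub_nonneg.2 hw1.le)]
      · have hX : 2 - 2 * u - w ≤ 2 - w := by linarith
        have h3 := pow_le_pow_left₀ hX0 hX 2
        have h4 : w ≤ 1 / 2 := by linarith
        nlinarith [mul_nonneg (sub_nonneg.2 h) (sub_nonneg.2 h4)]

/-- The general case. -/
theorem tri (α β γ : ℝ) (hα : 0 ≤ α) (hβ : 0 ≤ β) (hγ : 0 ≤ γ) (hs : α + β + γ = 1) :
    243 / 256 * (α ^ 2 + α * β + β ^ 2) ≤ 1 / 4 ∨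
    243 / 256 * (α ^ 2 + α * γ + γ ^ 2) ≤ 1 / 4 ∨
    243 / 256 * (β ^ 2 + β * γ + γ ^ 2) ≤ 1 / 4 ∨
    729 / 256 * α ^ 2 + 243 / 256 * (γ - β) ^ 2 / (11 / 125) ^ 2 ≤ 1 ∨
    729 / 256 * β ^ 2 + 243 / 256 * (γ - α) ^ 2 / (11 / 125) ^ 2 ≤ 1 ∨
    729 / 256 * γ ^ 2 + 243 / 256 * (β - α) ^ 2 / (11 / 125) ^ 2 ≤ 1 := by
  have s1 : (β - α) ^ 2 = (α - β) ^ 2 := by ring
  have s2 : (γ - α) ^ 2 = (α - γ) ^ 2 := by ring
  have s3 : (γ - β) ^ 2 = (β - γ) ^ 2 := by ring
  have m1 : α * β = β * α := mul_comm _ _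
  have m2 : α * γ = γ * α := mul_comm _ _
  have m3 : β * γ = γ * β := mul_comm _ _
  rcases le_total α β with h1 | h1 <;> rcases le_total β γ with h2 | h2 <;>
    rcases le_total α γ with h3 | h3
  · rcases tri_sorted α β γ hα h1 h2 hs with h | h | h <;> simp only [h, true_or, or_true]
  · rcases tri_sorted α β γ hα h1 h2 hs with h | h | h <;> simp only [h, true_or, or_true]
  · -- α ≤ γ ≤ β
    rcases tri_sorted α γ β hα h3 h2 (by linarith) with h | h | h
    · simp only [h, true_or, or_true]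
    · rw [← s3] at h; simp only [h, true_or, or_true]
    · simp only [h, true_or, or_true]
  · -- γ ≤ α ≤ β
    rcases tri_sorted γ α β hγ h3 h1 (by linarith) with h | h | h
    · right; left; linarith [h, m2]
    · simp only [h, true_or, or_true]
    · rw [← s2] at h; simp only [h, true_or, or_true]
  · -- β ≤ α ≤ γ
    rcases tri_sorted β α γ hβ h1 h3 (by linarith) with h | h | h
    · left; linarith [h, m1]
    · simp only [h, true_or, or_true]
    · rw [← s1] at h; simp only [h, true_or, or_true]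
  · -- β ≤ γ ≤ α
    rcases tri_sorted β γ α hβ h2 h3 (by linarith) with h | h | h
    · simp only [h, true_or, or_true]
    · rw [← s2] at h; simp only [h, true_or, or_true]
    · simp only [h, true_or, or_true]
  · -- γ ≤ β ≤ α and α ≤ γ : all equal
    rcases tri_sorted γ β α hγ h2 h1 (by linarith) with h | h | h
    · right; right; left; linarith [h, m3]
    · rw [← s1] at h; simp only [h, true_or, or_true]
    · rw [← s3] at h; simp only [h, true_or, or_true]
  · rcases tri_sorted γ β α hγ h2 h1 (by linarith) with h | h | h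
    · right; right; left; linarith [h, m3]
    · rw [← s1] at h; simp only [h, true_or, or_true]
    · rw [← s3] at h; simp only [h, true_or, or_true]

end Pool.Agent.Helper85.Ell
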