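import Pool.Agent.Helper85.Ell.Defs
import Pool.Agent.Helper85.Ell.Tri

/-! The covering: a hexagonal lattice of discs and three thin ellipses per disc. -/

namespace Pool.Agent.Helper85.Ell

open scoped ENNReal RealInnerProductSpace

/-- The point with coordinates `(s,t)` in the basis of the hexagonal lattice. -/
noncomputable def P (s t : ℝ) : Plane := !₂[9 * √3 / 16 * (s + t / 2), 27 / 32 * t]

noncomputable def e1 : Plane := !₂[1, 0]
noncomputable def e2 : Plane := !₂[0, 1]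
noncomputable def f1 : Plane := !₂[1 / 2, √3 / 2]
noncomputable def f2 : Plane := !₂[-√3 / 2, 1 / 2]
noncomputable def g1 : Plane := !₂[-1 / 2, √3 / 2]
noncomputable def g2 : Plane := !₂[√3 / 2, 1 / 2]

/-- The four ellipses of the cell `(m,n)`. -/
noncomputable def fam (i : (ℤ × ℤ) × Fin 4) : Set Plane :=
  match i with
  | ((m, n), 0) => ellipse (P m n) e2 e1 1
  | ((m, n), 1) => ellipse (P (m + 1 / 2) n) e2 e1 (11 / 125)
  | ((m, n), 2) => ellipse (P m (n + 1 / 2)) f2 f1 (11 / 125)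
  | ((m, n), 3) => ellipse (P (m - 1 / 2) (n + 1 / 2)) g2 g1 (11 / 125)

theorem inner_two (u x : Plane) : ⟪u, x⟫ = u 0 * x 0 + u 1 * x 1 := by
  rw [PiLp.inner_apply, Fin.sum_univ_two]
  simp only [RCLike.inner_apply, conj_trivial]
  ring

theorem norm_two (u : Plane) : ‖u‖ = √(u 0 ^ 2 + u 1 ^ 2) := by
  rw [EuclideanSpace.norm_eq, Fin.sum_univ_two]
  simp only [Real.norm_eq_abs, sq_abs]

theorem s3 : √3 * √3 = 3 := Real.mul_self_sqrt (by norm_num)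

/-- Length of the minor axis of the four members of a cell. -/
noncomputable def ar (j : Fin 4) : ℝ := if j = 0 then 1 else 11 / 125

theorem ar_pos (j : Fin 4) : 0 < ar j := by
  unfold ar; split_ifs <;> norm_num

theorem ar_le (j : Fin 4) : ar j ≤ 1 := by
  unfold ar; split_ifs <;> norm_num

theorem fam_form (p : ℤ × ℤ) (j : Fin 4) : ∃ (σ τ : ℝ) (u v : Plane), |σ| ≤ 1 / 2 ∧ |τ| ≤ 1 / 2 ∧
    ‖u‖ = 1 ∧ ‖v‖ = 1 ∧ ⟪u, v⟫ = 0 ∧ fam (p, j) = ellipse (P (p.1 + σ) (p.2 + τ)) u v (ar j) := by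
  have h3 := s3
  obtain ⟨m, n⟩ := p
  have n1 : ‖e1‖ = 1 := by rw [norm_two]; simp [e1]
  have n2 : ‖e2‖ = 1 := by rw [norm_two]; simp [e2]
  have n3 : ‖f1‖ = 1 := by
    rw [norm_two, Real.sqrt_eq_one]; simp [f1]; nlinarith
  have n4 : ‖f2‖ = 1 := by
    rw [norm_two, Real.sqrt_eq_one]; simp [f2]; nlinarith
  have n5 : ‖g1‖ = 1 := by
    rw [norm_two, Real.sqrt_eq_one]; simp [g1]; nlinarith
  have n6 : ‖g2‖ = 1 := by
    rw [norm_two, Real.sqrt_eq_one]; simp [g2]; nlinarith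
  have i1 : ⟪e2, e1⟫ = 0 := by rw [inner_two]; simp [e1, e2]
  have i2 : ⟪f2, f1⟫ = 0 := by rw [inner_two]; simp [f1, f2]; ring
  have i3 : ⟪g2, g1⟫ = 0 := by rw [inner_two]; simp [g1, g2]; ring
  fin_cases j
  · refine ⟨0, 0, e2, e1, by norm_num, by norm_num, n2, n1, i1, ?_⟩
    show ellipse (P m n) e2 e1 1 = _
    simp [ar]
  · refine ⟨1 / 2, 0, e2, e1, by norm_num [abs_le], by norm_num, n2, n1, i1, ?_⟩
    show ellipse (P (m + 1 / 2) n) e2 e1 (11 / 125) = _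
    simp [ar]
  · refine ⟨0, 1 / 2, f2, f1, by norm_num, by norm_num [abs_le], n4, n3, i2, ?_⟩
    show ellipse (P m (n + 1 / 2)) f2 f1 (11 / 125) = _
    simp [ar]
  · refine ⟨- 1 / 2, 1 / 2, g2, g1, by norm_num [abs_le], by norm_num [abs_le], n6, n5, i3, ?_⟩
    show ellipse (P (m - 1 / 2) (n + 1 / 2)) g2 g1 (11 / 125) = _
    have : (m : ℝ) - 1 / 2 = m + - 1 / 2 := by ring
    rw [this]
    simp [ar]

theorem fam_isEllipse (i : (ℤ × ℤ) × Fin 4) : IsEllipse (fam i) := by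
  obtain ⟨p, j⟩ := i
  obtain ⟨σ, τ, u, v, -, -, h3, h4, h5, h6⟩ := fam_form p j
  exact ⟨_, u, v, ar j, h3, h4, h5, ar_pos j, ar_le j, h6⟩

theorem P_surj (x : Plane) : ∃ s t, x = P s t := by
  have h3 : (0:ℝ) < √3 := Real.sqrt_pos.2 (by norm_num)
  refine ⟨x 0 * 16 / (9 * √3) - x 1 * 32 / 27 / 2, x 1 * 32 / 27, ?_⟩
  ext i
  fin_cases i
  · simp [P]
  · simp [P]

theorem P_sub (s t m n : ℝ) : P s t - P m n = P (s - m) (t - n) := by
  ext i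
  fin_cases i
  · simp [P]; ring
  · simp [P]; ring

theorem P_zero' (s t : ℝ) : P s t 0 = 9 * √3 / 16 * (s + t / 2) := by simp [P]

theorem P_one' (s t : ℝ) : P s t 1 = 27 / 32 * t := by simp [P]

theorem mem_ell (u v : Plane) (b s t m n : ℝ) : P s t ∈ ellipse (P m n) u v b ↔
    ((u 0 * (9 * √3 / 16 * ((s - m) + (t - n) / 2)) + u 1 * (27 / 32 * (t - n))) / (1 / 2)) ^ 2 +
    ((v 0 * (9 * √3 / 16 * ((s - m) + (t - n) / 2)) + v 1 * (27 / 32 * (t - n))) / (b / 2)) ^ 2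
      ≤ 1 := by
  unfold ellipse
  rw [Set.mem_ofPred_eq, P_sub, inner_two, inner_two, P_zero', P_one']

theorem mem0 (s t : ℝ) (m n : ℤ)
    (h : 243 / 256 * ((s - m) ^ 2 + (s - m) * (t - n) + (t - n) ^ 2) ≤ 1 / 4) :
    P s t ∈ fam ((m, n), 0) := by
  have h3 := s3
  have h4 : √3 ^ 2 = 3 := by rw [sq, h3]
  show P s t ∈ ellipse (P m n) e2 e1 1
  rw [mem_ell]
  have a1 : e1 0 = 1 := by simp [e1]
  have a2 : e1 1 = 0 := by simp [e1]
  have a3 : e2 0 = 0 := by simp [e2]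
  have a4 : e2 1 = 1 := by simp [e2]
  rw [a1, a2, a3, a4]
  refine le_trans (le_of_eq ?_) (show 4 * (243 / 256 * ((s - m) ^ 2 + (s - m) * (t - n)
    + (t - n) ^ 2)) ≤ 1 by linarith)
  ring_nf
  rw [h4]
  ring

theorem mem1 (s t : ℝ) (m n : ℤ)
    (h : 729 / 256 * (t - n) ^ 2 + 243 / 256 * (2 * (s - m) - 1 + (t - n)) ^ 2 / (11 / 125) ^ 2
      ≤ 1) : P s t ∈ fam ((m, n), 1) := by
  have h3 := s3
  have h4 : √3 ^ 2 = 3 := by rw [sq, h3]
  show P s t ∈ ellipse (P (m + 1 / 2) n) e2 e1 (11 / 125)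
  rw [mem_ell]
  have a1 : e1 0 = 1 := by simp [e1]
  have a2 : e1 1 = 0 := by simp [e1]
  have a3 : e2 0 = 0 := by simp [e2]
  have a4 : e2 1 = 1 := by simp [e2]
  rw [a1, a2, a3, a4]
  refine le_trans (le_of_eq ?_) h
  ring_nf
  rw [h4]
  ring

theorem mem2 (s t : ℝ) (m n : ℤ)
    (h : 729 / 256 * (s - m) ^ 2 + 243 / 256 * (2 * (t - n) - 1 + (s - m)) ^ 2 / (11 / 125) ^ 2
      ≤ 1) : P s t ∈ fam ((m, n), 2) := by
  have h3 := s3
  have h4 : √3 ^ 2 = 3 := by rw [sq, h3]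
  have h5 : √3 ^ 4 = 9 := by rw [show √3 ^ 4 = (√3 ^ 2) ^ 2 by ring, h4]; norm_num
  show P s t ∈ ellipse (P m (n + 1 / 2)) f2 f1 (11 / 125)
  rw [mem_ell]
  have a1 : f1 0 = 1 / 2 := by simp [f1]
  have a2 : f1 1 = √3 / 2 := by simp [f1]
  have a3 : f2 0 = - √3 / 2 := by simp [f2]
  have a4 : f2 1 = 1 / 2 := by simp [f2]
  rw [a1, a2, a3, a4]
  refine le_trans (le_of_eq ?_) h
  ring_nf
  simp only [h4, h5]
  ring

theorem mem3 (s t : ℝ) (m n : ℤ)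
    (h : 729 / 256 * ((s - m) + (t - n)) ^ 2
      + 243 / 256 * ((t - n) - (s - m) - 1) ^ 2 / (11 / 125) ^ 2 ≤ 1) :
    P s t ∈ fam ((m, n), 3) := by
  have h3 := s3
  have h4 : √3 ^ 2 = 3 := by rw [sq, h3]
  have h5 : √3 ^ 4 = 9 := by rw [show √3 ^ 4 = (√3 ^ 2) ^ 2 by ring, h4]; norm_num
  show P s t ∈ ellipse (P (m - 1 / 2) (n + 1 / 2)) g2 g1 (11 / 125)
  rw [mem_ell]
  have a1 : g1 0 = - 1 / 2 := by simp [g1]
  have a2 : g1 1 = √3 / 2 := by simp [g1]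
  have a3 : g2 0 = √3 / 2 := by simp [g2]
  have a4 : g2 1 = 1 / 2 := by simp [g2]
  rw [a1, a2, a3, a4]
  refine le_trans (le_of_eq ?_) h
  ring_nf
  simp only [h4, h5]
  ring

/-- The family covers the plane. -/
theorem fam_cover (x : Plane) : ∃ i, x ∈ fam i := by
  obtain ⟨s, t, rfl⟩ := P_surj x
  obtain ⟨σ, hσ⟩ : ∃ σ, σ = Int.fract s := ⟨_, rfl⟩
  obtain ⟨τ, hτ⟩ : ∃ τ, τ = Int.fract t := ⟨_, rfl⟩
  have hσ0 : 0 ≤ σ := hσ ▸ Int.fract_nonneg s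
  have hσ1 : σ < 1 := hσ ▸ Int.fract_lt_one s
  have hτ0 : 0 ≤ τ := hτ ▸ Int.fract_nonneg t
  have hτ1 : τ < 1 := hτ ▸ Int.fract_lt_one t
  obtain ⟨m, hm⟩ : ∃ m : ℤ, m = ⌊s⌋ := ⟨_, rfl⟩
  obtain ⟨n, hn⟩ : ∃ n : ℤ, n = ⌊t⌋ := ⟨_, rfl⟩
  have es : s = m + σ := by rw [hm, hσ]; exact (Int.floor_add_fract s).symm
  have et : t = n + τ := by rw [hn, hτ]; exact (Int.floor_add_fract t).symm
  have c1 : s - (m : ℝ) = σ := by linarith
  have c2 : t - (n : ℝ) = τ := by linarith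
  have c3 : s - ((m + 1 : ℤ) : ℝ) = σ - 1 := by push_cast; linarith
  have c4 : t - ((n + 1 : ℤ) : ℝ) = τ - 1 := by push_cast; linarith
  by_cases hst : σ + τ ≤ 1
  · rcases tri (1 - σ - τ) σ τ (by linarith) hσ0 hτ0 (by ring) with h | h | h | h | h | h
    · -- vertex (m, n+1)
      refine ⟨((m, n + 1), 0), mem0 s t m (n + 1) ?_⟩
      rw [c1, c4]; linarith [h]
    · refine ⟨((m + 1, n), 0), mem0 s t (m + 1) n ?_⟩
      rw [c3, c2]; linarith [h]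
    · refine ⟨((m, n), 0), mem0 s t m n ?_⟩
      rw [c1, c2]; linarith [h]
    · refine ⟨((m + 1, n), 3), mem3 s t (m + 1) n ?_⟩
      rw [c3, c2]
      rw [show σ - 1 + τ = - (1 - σ - τ) by ring, show τ - (σ - 1) - 1 = τ - σ by ring, neg_sq]
      exact h
    · refine ⟨((m, n), 2), mem2 s t m n ?_⟩
      rw [c1, c2]
      rw [show 2 * τ - 1 + σ = τ - (1 - σ - τ) by ring]
      exact h
    · refine ⟨((m, n), 1), mem1 s t m n ?_⟩
      rw [c1, c2]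
      rw [show 2 * σ - 1 + τ = σ - (1 - σ - τ) by ring]
      exact h
  · rcases tri (σ + τ - 1) (1 - σ) (1 - τ) (by linarith) (by linarith) (by linarith) (by ring)
      with h | h | h | h | h | h
    · -- vertex with weight 1 - τ : (m + 1, n)
      refine ⟨((m + 1, n), 0), mem0 s t (m + 1) n ?_⟩
      rw [c3, c2]; linarith [h]
    · refine ⟨((m, n + 1), 0), mem0 s t m (n + 1) ?_⟩
      rw [c1, c4]; linarith [h]
    · refine ⟨((m + 1, n + 1), 0), mem0 s t (m + 1) (n + 1) ?_⟩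
      rw [c3, c4]; linarith [h]
    · refine ⟨((m + 1, n), 3), mem3 s t (m + 1) n ?_⟩
      rw [c3, c2]
      rw [show σ - 1 + τ = σ + τ - 1 by ring,
        show (τ - (σ - 1) - 1) ^ 2 = (1 - τ - (1 - σ)) ^ 2 by ring]
      exact h
    · refine ⟨((m + 1, n), 2), mem2 s t (m + 1) n ?_⟩
      rw [c3, c2]
      rw [show (σ - 1) ^ 2 = (1 - σ) ^ 2 by ring,
        show (2 * τ - 1 + (σ - 1)) ^ 2 = (1 - τ - (σ + τ - 1)) ^ 2 by ring]
      exact h
    · refine ⟨((m, n + 1), 1), mem1 s t m (n + 1) ?_⟩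
      rw [c1, c4]
      rw [show (τ - 1) ^ 2 = (1 - τ) ^ 2 by ring,
        show (2 * σ - 1 + (τ - 1)) ^ 2 = (1 - σ - (σ + τ - 1)) ^ 2 by ring]
      exact h

end Pool.Agent.Helper85.Ell
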