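import Mathlib

/-! Ellipses of diameter 1 in the plane, coverings, lower densities (problem MP_7826f3_co). -/

namespace Pool.Agent.Helper85.Ell

open MeasureTheory Filter
open scoped ENNReal RealInnerProductSpace

/-- The Euclidean plane. -/
abbrev Plane : Type := EuclideanSpace ℝ (Fin 2)

/-- The closed elliptical region with centre `c`, major axis of length `1` in the direction of the
unit vector `u`, and minor axis of length `b` in the direction of the unit vector `v`
orthogonal to `u`. -/
def ellipse (c u v : Plane) (b : ℝ) : Set Plane :=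
  {x | (⟪u, x - c⟫ / (1 / 2)) ^ 2 + (⟪v, x - c⟫ / (b / 2)) ^ 2 ≤ 1}

/-- `E` is an ellipse of diameter `1`: a closed elliptical region with major axis of length `1`
and minor axis of some length `b` in `(0,1]`, in any position. -/
def IsEllipse (E : Set Plane) : Prop :=
  ∃ (c u v : Plane) (b : ℝ), ‖u‖ = 1 ∧ ‖v‖ = 1 ∧ ⟪u, v⟫ = 0 ∧ 0 < b ∧ b ≤ 1 ∧ E = ellipse c u v b

/-- A covering of the plane by ellipses of diameter `1`: a family with countable index type,
all members being ellipses of diameter `1`, with union the whole plane. -/
def IsCovering {ι : Type} (E : ι → Set Plane) : Prop :=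
  Countable ι ∧ (∀ i, IsEllipse (E i)) ∧ (⋃ i, E i) = Set.univ

/-- The lower density of a family of plane sets: the `liminf` as `R → ∞` of
`(∑ area (E_i ∩ B_R)) / area B_R`. -/
noncomputable def lowerDensity {ι : Type} (E : ι → Set Plane) : ℝ≥0∞ :=
  liminf (fun R : ℝ => (∑' i, volume (E i ∩ Metric.closedBall 0 R)) /
    volume (Metric.closedBall (0 : Plane) R)) atTop

/-- The infimum of the lower densities of all coverings of the plane by ellipses of
diameter `1`. -/
noncomputable def thetaVar : ℝ≥0∞ :=
  sInf {d | ∃ (ι : Type) (E : ι → Set Plane), IsCovering E ∧ d = lowerDensity E}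

end Pool.Agent.Helper85.Ell
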