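import Pool.Agent.Helper85.Ell.Vol

/-! The density of the covering. -/

namespace Pool.Agent.Helper85.Ell

open MeasureTheory Filter Topology
open scoped ENNReal RealInnerProductSpace

/-- Area of the cell. -/
noncomputable def VV : ℝ≥0∞ := ENNReal.ofReal (243 * √3 / 512)

theorem VV_ne_zero : VV ≠ 0 := by
  have h3 : (0:ℝ) < √3 := Real.sqrt_pos.2 (by norm_num)
  rw [VV, Ne, ENNReal.ofReal_eq_zero, not_le]
  positivity

theorem VV_ne_top : VV ≠ ⊤ := ENNReal.ofReal_ne_top

theorem one_le (p : ℤ × ℤ) (j : Fin 4) (R : ℝ) :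
    volume (fam (p, j) ∩ Metric.closedBall 0 R) ≤
      (ENNReal.ofReal (ar j / 4 * Real.pi) / VV) *
        volume (cell p ∩ Metric.closedBall 0 (R + 4)) := by
  obtain ⟨hv, hs⟩ := fam_data p j
  rcases Set.eq_empty_or_nonempty (fam (p, j) ∩ Metric.closedBall 0 R) with h | ⟨x, hx1, hx2⟩
  · rw [h, measure_empty]; exact bot_le
  · have hx3 := hs hx1
    rw [Metric.mem_closedBall] at hx3 hx2
    have hsub : cell p ⊆ Metric.closedBall 0 (R + 4) := by
      intro y hy
      have hy1 := cell_sub p hy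
      rw [Metric.mem_closedBall] at hy1 ⊢
      have t1 := dist_triangle y (P p.1 p.2) 0
      have t2 := dist_triangle (P p.1 p.2) x 0
      rw [dist_comm (P p.1 p.2) x] at t2
      linarith
    rw [Set.inter_eq_left.2 hsub, vol_cell, ← VV, ENNReal.div_mul_cancel VV_ne_zero VV_ne_top,
      ← hv]
    exact measure_mono Set.inter_subset_left

/-- The density of the covering. -/
noncomputable def KK : ℝ≥0∞ := ∑' j : Fin 4, ENNReal.ofReal (ar j / 4 * Real.pi) / VV

theorem sum_le (R : ℝ) : ∑' i, volume (fam i ∩ Metric.closedBall 0 R) ≤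
    KK * volume (Metric.closedBall (0 : Plane) (R + 4)) := by
  calc ∑' i, volume (fam i ∩ Metric.closedBall 0 R)
      = ∑' p : ℤ × ℤ, ∑' j : Fin 4, volume (fam (p, j) ∩ Metric.closedBall 0 R) :=
        ENNReal.tsum_prod'
    _ ≤ ∑' p : ℤ × ℤ, ∑' j : Fin 4, (ENNReal.ofReal (ar j / 4 * Real.pi) / VV) *
        volume (cell p ∩ Metric.closedBall 0 (R + 4)) :=
        ENNReal.tsum_le_tsum fun p => ENNReal.tsum_le_tsum fun j => one_le p j R
    _ = ∑' p : ℤ × ℤ, KK * volume (cell p ∩ Metric.closedBall 0 (R + 4)) := by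
        refine tsum_congr fun p => ?_
        rw [ENNReal.tsum_mul_right, KK]
    _ = KK * ∑' p : ℤ × ℤ, volume (cell p ∩ Metric.closedBall 0 (R + 4)) :=
        ENNReal.tsum_mul_left
    _ = KK * volume (⋃ p : ℤ × ℤ, cell p ∩ Metric.closedBall 0 (R + 4)) := by
        rw [measure_iUnion]
        · intro p q hpq
          exact (cell_disjoint hpq).mono Set.inter_subset_left Set.inter_subset_left
        · intro p
          exact (measurableSet_cell p).inter Metric.isClosed_closedBall.measurableSet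
    _ ≤ KK * volume (Metric.closedBall (0 : Plane) (R + 4)) := by
        gcongr
        exact Set.iUnion_subset fun p => Set.inter_subset_right

theorem KK_eq : KK = ENNReal.ofReal (20224 / 30375 * Real.pi / √3) := by
  have h3 : (0:ℝ) < √3 := Real.sqrt_pos.2 (by norm_num)
  have hpi := Real.pi_pos
  rw [KK, tsum_fintype]
  have h : ∀ j : Fin 4, ENNReal.ofReal (ar j / 4 * Real.pi) / VV =
      ENNReal.ofReal (ar j / 4 * Real.pi / (243 * √3 / 512)) := by
    intro j
    rw [VV, ← ENNReal.ofReal_div_of_pos (by positivity)]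
  simp only [h]
  rw [← ENNReal.ofReal_sum_of_nonneg (fun j _ => by
    have := ar_pos j
    positivity)]
  congr 1
  rw [Fin.sum_univ_four]
  have a0 : ar 0 = 1 := by simp [ar]
  have a1 : ar 1 = 11 / 125 := by simp [ar]
  have a2 : ar 2 = 11 / 125 := by simp [ar]
  have a3 : ar 3 = 11 / 125 := by simp [ar]
  rw [a0, a1, a2, a3]
  field_simp
  norm_num

theorem KK_lt : KK < ENNReal.ofReal (2 * Real.pi / √27) := by
  have h3 : (0:ℝ) < √3 := Real.sqrt_pos.2 (by norm_num)
  have hpi := Real.pi_pos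
  have h27 : √27 = 3 * √3 := by
    rw [show (27:ℝ) = 3 ^ 2 * 3 by norm_num, Real.sqrt_mul (by norm_num), Real.sqrt_sq (by norm_num)]
  rw [KK_eq, h27]
  rw [ENNReal.ofReal_lt_ofReal_iff (by positivity)]
  rw [div_lt_div_iff₀ h3 (by positivity)]
  nlinarith [mul_pos hpi h3]

theorem KK_ne_top : KK ≠ ⊤ := by rw [KK_eq]; exact ENNReal.ofReal_ne_top

theorem lowerDensity_le : lowerDensity fam ≤ KK := by
  have hlim : Tendsto (fun R : ℝ => KK * ENNReal.ofReal (((R + 4) / R) ^ 2)) atTop (𝓝 KK) := by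
    have h1 : Tendsto (fun R : ℝ => ((R + 4) / R) ^ 2) atTop (𝓝 1) := by
      have h2 : Tendsto (fun R : ℝ => 1 + 4 / R) atTop (𝓝 (1 + 0)) :=
        tendsto_const_nhds.add (tendsto_const_nhds.div_atTop tendsto_id)
      have h3 : Tendsto (fun R : ℝ => (1 + 4 / R) ^ 2) atTop (𝓝 ((1 + 0) ^ 2)) := h2.pow 2
      rw [show ((1:ℝ) + 0) ^ 2 = 1 by norm_num] at h3
      refine h3.congr' ?_
      filter_upwards [eventually_gt_atTop 0] with R hR
      congr 1
      field_simp
    have h4 := ENNReal.tendsto_ofReal h1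
    have h5 := ENNReal.Tendsto.const_mul (a := KK) h4 (Or.inr KK_ne_top)
    rwa [ENNReal.ofReal_one, mul_one] at h5
  rw [← hlim.liminf_eq]
  unfold lowerDensity
  refine liminf_le_liminf ?_
  filter_upwards [eventually_gt_atTop 0] with R hR
  have hpi := Real.pi_pos
  have h1 := sum_le R
  rw [EuclideanSpace.volume_closedBall_fin_two] at h1
  rw [EuclideanSpace.volume_closedBall_fin_two]
  have h2 : (∑' i, volume (fam i ∩ Metric.closedBall 0 R)) /
      (ENNReal.ofReal R ^ 2 * ENNReal.ofReal Real.pi) ≤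
      KK * (ENNReal.ofReal (R + 4) ^ 2 * ENNReal.ofReal Real.pi) /
      (ENNReal.ofReal R ^ 2 * ENNReal.ofReal Real.pi) := by
    gcongr
  refine h2.trans (le_of_eq ?_)
  rw [mul_div_assoc]
  congr 1
  rw [← ENNReal.ofReal_pow (by linarith), ← ENNReal.ofReal_pow hR.le,
    ← ENNReal.ofReal_mul (by positivity), ← ENNReal.ofReal_mul (by positivity),
    ← ENNReal.ofReal_div_of_pos (by positivity)]
  congr 1
  field_simp

theorem main : thetaVar < ENNReal.ofReal (2 * Real.pi / √27) := by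
  refine lt_of_le_of_lt ?_ KK_lt
  refine le_trans (sInf_le ?_) lowerDensity_le
  refine ⟨_, fam, ⟨inferInstance, fam_isEllipse, ?_⟩, rfl⟩
  rw [Set.eq_univ_iff_forall]
  intro x
  rw [Set.mem_iUnion]
  exact fam_cover x

end Pool.Agent.Helper85.Ell
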