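import Pool.Agent.Helper85.Ell.Cover

/-! Areas. -/

namespace Pool.Agent.Helper85.Ell

open MeasureTheory
open scoped ENNReal RealInnerProductSpace

theorem vol_preimage (M : Matrix (Fin 2) (Fin 2) ℝ) (hM : M.det ≠ 0) (s : Set Plane) :
    volume ((Matrix.toLpLin 2 2 M) ⁻¹' s) = ENNReal.ofReal |M.det⁻¹| * volume s := by
  have h : LinearMap.det (Matrix.toLpLin 2 2 M) = M.det := by
    rw [Matrix.toLpLin_eq_toLin, LinearMap.det_toLin]
  rw [Measure.addHaar_preimage_linearMap volume (by rw [h]; exact hM) s, h]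

/-- The area of an ellipse of diameter `1`. -/
theorem vol_ellipse (c u v : Plane) (b : ℝ) (hu : ‖u‖ = 1) (hv : ‖v‖ = 1) (huv : ⟪u, v⟫ = 0)
    (hb : 0 < b) : volume (ellipse c u v b) = ENNReal.ofReal (b / 4 * Real.pi) := by
  rw [norm_two, Real.sqrt_eq_one] at hu hv
  rw [inner_two] at huv
  have hdet : (u 0 * v 1 - u 1 * v 0) ^ 2 = 1 := by
    have : (u 0 * v 1 - u 1 * v 0) ^ 2 = (u 0 ^ 2 + u 1 ^ 2) * (v 0 ^ 2 + v 1 ^ 2)
      - (u 0 * v 0 + u 1 * v 1) ^ 2 := by ring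
    rw [this, hu, hv, huv]; norm_num
  let M : Matrix (Fin 2) (Fin 2) ℝ := !![u 0 * 2, u 1 * 2; v 0 * (2 / b), v 1 * (2 / b)]
  have hM : M.det = (u 0 * v 1 - u 1 * v 0) * (4 / b) := by
    rw [Matrix.det_fin_two]
    simp only [M, Matrix.of_apply, Matrix.cons_val', Matrix.cons_val_zero, Matrix.cons_val_one,
      Matrix.cons_val_fin_one]
    ring
  have habs : |u 0 * v 1 - u 1 * v 0| = 1 := by
    have h1 : |u 0 * v 1 - u 1 * v 0| ^ 2 = 1 := by rw [sq_abs]; exact hdet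
    nlinarith [abs_nonneg (u 0 * v 1 - u 1 * v 0)]
  have hM0 : M.det ≠ 0 := by
    rw [hM]
    refine mul_ne_zero ?_ (by positivity)
    intro h0
    rw [h0] at habs
    norm_num at habs
  have hMi : |M.det⁻¹| = b / 4 := by
    rw [hM, abs_inv, abs_mul, habs, one_mul, abs_of_pos (by positivity), inv_div]
  have hE : ellipse c u v b =
      (fun x => x + -c) ⁻¹' ((Matrix.toLpLin 2 2 M) ⁻¹' (Metric.closedBall 0 1)) := by
    ext x
    simp only [ellipse, Set.mem_ofPred_eq, Set.mem_preimage, Metric.mem_closedBall, dist_zero_right]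
    rw [norm_two, Real.sqrt_le_one]
    rw [inner_two, inner_two, ← sub_eq_add_neg]
    have h0 : (Matrix.toLpLin 2 2 M (x - c)) 0 = u 0 * 2 * (x - c) 0 + u 1 * 2 * (x - c) 1 := by
      simp [M, Matrix.mulVec, dotProduct, Fin.sum_univ_two]; ring
    have h1 : (Matrix.toLpLin 2 2 M (x - c)) 1
        = v 0 * (2 / b) * (x - c) 0 + v 1 * (2 / b) * (x - c) 1 := by
      simp [M, Matrix.mulVec, dotProduct, Fin.sum_univ_two]; ring
    rw [h0, h1]
    have e0 : (u 0 * (x - c) 0 + u 1 * (x - c) 1) / (1 / 2)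
      = u 0 * 2 * (x - c) 0 + u 1 * 2 * (x - c) 1 := by ring
    have e1 : (v 0 * (x - c) 0 + v 1 * (x - c) 1) / (b / 2)
      = v 0 * (2 / b) * (x - c) 0 + v 1 * (2 / b) * (x - c) 1 := by
      field_simp
    rw [e0, e1]
  rw [hE, measure_preimage_add_right, vol_preimage M hM0, hMi,
    EuclideanSpace.volume_closedBall_fin_two, ENNReal.ofReal_one, one_pow, one_mul,
    ← ENNReal.ofReal_mul (by positivity)]

/-- The unit square with lower left corner `(m,n)`. -/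
def unitSq (m n : ℤ) : Set Plane :=
  {x | (m : ℝ) ≤ x 0 ∧ x 0 < m + 1 ∧ (n : ℝ) ≤ x 1 ∧ x 1 < n + 1}

theorem vol_unitSq (m n : ℤ) : volume (unitSq m n) = 1 := by
  have h := (PiLp.volume_preserving_ofLp (Fin 2)).measure_preimage
    (s := Set.pi Set.univ (fun i : Fin 2 => Set.Ico (![(m : ℝ), n] i) (![(m : ℝ) + 1, n + 1] i)))
    (MeasurableSet.pi Set.countable_univ (fun _ _ => measurableSet_Ico)).nullMeasurableSet
  have he : unitSq m n = WithLp.ofLp ⁻¹' (Set.pi Set.univ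
      (fun i : Fin 2 => Set.Ico (![(m : ℝ), n] i) (![(m : ℝ) + 1, n + 1] i))) := by
    ext x
    simp [unitSq, Fin.forall_fin_two, and_assoc]
  rw [he, h, Real.volume_pi_Ico, Fin.prod_univ_two]
  simp

theorem measurableSet_unitSq (m n : ℤ) : MeasurableSet (unitSq m n) := by
  have he : unitSq m n = WithLp.ofLp ⁻¹' (Set.pi Set.univ
      (fun i : Fin 2 => Set.Ico (![(m : ℝ), n] i) (![(m : ℝ) + 1, n + 1] i))) := by
    ext x
    simp [unitSq, Fin.forall_fin_two, and_assoc]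
  rw [he]
  exact (PiLp.volume_preserving_ofLp (Fin 2)).measurable
    (MeasurableSet.pi Set.countable_univ (fun _ _ => measurableSet_Ico))

/-- The matrix of the lattice coordinates. -/
noncomputable def MC : Matrix (Fin 2) (Fin 2) ℝ :=
  !![16 / (9 * √3), -(16 / 27); 0, 32 / 27]

theorem MC_det : MC.det = 512 / (243 * √3) := by
  rw [MC, Matrix.det_fin_two]
  simp only [Matrix.of_apply, Matrix.cons_val', Matrix.cons_val_zero, Matrix.cons_val_one,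
      Matrix.cons_val_fin_one]
  have h3 : (0:ℝ) < √3 := Real.sqrt_pos.2 (by norm_num)
  field_simp
  norm_num

/-- The cell of the lattice. -/
noncomputable def cell (p : ℤ × ℤ) : Set Plane := (Matrix.toLpLin 2 2 MC) ⁻¹' (unitSq p.1 p.2)

theorem vol_cell (p : ℤ × ℤ) : volume (cell p) = ENNReal.ofReal (243 * √3 / 512) := by
  have h3 : (0:ℝ) < √3 := Real.sqrt_pos.2 (by norm_num)
  rw [cell, vol_preimage MC (by rw [MC_det]; positivity), vol_unitSq, mul_one, MC_det, inv_div,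
    abs_of_pos (by positivity)]

theorem measurableSet_cell (p : ℤ × ℤ) : MeasurableSet (cell p) :=
  (LinearMap.continuous_of_finiteDimensional (Matrix.toLpLin 2 2 MC)).measurable
    (measurableSet_unitSq _ _)

theorem mem_cell {p : ℤ × ℤ} {x : Plane} (hx : x ∈ cell p) : ∃ s t : ℝ, x = P s t ∧
    (p.1 : ℝ) ≤ s ∧ s < p.1 + 1 ∧ (p.2 : ℝ) ≤ t ∧ t < p.2 + 1 := by
  have h3 : (0:ℝ) < √3 := Real.sqrt_pos.2 (by norm_num)
  obtain ⟨s, t, rfl⟩ := P_surj x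
  refine ⟨s, t, rfl, ?_⟩
  have h0 : (Matrix.toLpLin 2 2 MC (P s t)) 0 = s := by
    simp [MC, P]
    field_simp
    ring
  have h1 : (Matrix.toLpLin 2 2 MC (P s t)) 1 = t := by
    simp [MC, P]
    ring
  rw [cell, Set.mem_preimage, unitSq, Set.mem_ofPred_eq, h0, h1] at hx
  exact hx

theorem cell_disjoint : Pairwise (Function.onFun Disjoint cell) := by
  intro p q hpq
  rw [Function.onFun, Set.disjoint_left]
  intro x hp hq
  apply hpq
  rw [cell, Set.mem_preimage, unitSq, Set.mem_ofPred_eq] at hp hq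
  obtain ⟨h1, h2, h3, h4⟩ := hp
  obtain ⟨k1, k2, k3, k4⟩ := hq
  have a1 : p.1 = q.1 := by
    have h5 : (p.1 : ℝ) < q.1 + 1 := lt_of_le_of_lt h1 k2
    have h6 : (q.1 : ℝ) < p.1 + 1 := lt_of_le_of_lt k1 h2
    have h7 : p.1 < q.1 + 1 := by exact_mod_cast h5
    have h8 : q.1 < p.1 + 1 := by exact_mod_cast h6
    omega
  have a2 : p.2 = q.2 := by
    have h5 : (p.2 : ℝ) < q.2 + 1 := lt_of_le_of_lt h3 k4
    have h6 : (q.2 : ℝ) < p.2 + 1 := lt_of_le_of_lt k3 h4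
    have h7 : p.2 < q.2 + 1 := by exact_mod_cast h5
    have h8 : q.2 < p.2 + 1 := by exact_mod_cast h6
    omega
  exact Prod.ext a1 a2

theorem norm_P_le (s t : ℝ) (hs : |s| ≤ 1) (ht : |t| ≤ 1) : ‖P s t‖ ≤ 2 := by
  rw [norm_two, P_zero', P_one']
  rw [Real.sqrt_le_left (by norm_num)]
  have h4 : √3 ^ 2 = 3 := by rw [sq, s3]
  have e : (9 * √3 / 16 * (s + t / 2)) ^ 2 + (27 / 32 * t) ^ 2
    = 243 / 256 * (s ^ 2 + s * t + t ^ 2) := by
    ring_nf; rw [h4]; ring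
  rw [e]
  rw [abs_le] at hs ht
  have h1 : s ^ 2 ≤ 1 := by nlinarith
  have h2 : t ^ 2 ≤ 1 := by nlinarith
  nlinarith [sq_nonneg (s - t)]

theorem cell_sub (p : ℤ × ℤ) : cell p ⊆ Metric.closedBall (P p.1 p.2) 2 := by
  intro x hx
  obtain ⟨s, t, rfl, h1, h2, h3, h4⟩ := mem_cell hx
  rw [Metric.mem_closedBall, dist_eq_norm, P_sub]
  apply norm_P_le
  · rw [abs_le]; constructor <;> linarith
  · rw [abs_le]; constructor <;> linarith

/-- An ellipse of diameter `1` lies in the ball of radius `1` about its centre. -/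
theorem ellipse_sub (c u v : Plane) (b : ℝ) (hu : ‖u‖ = 1) (hv : ‖v‖ = 1) (huv : ⟪u, v⟫ = 0)
    (hb : 0 < b) (hb1 : b ≤ 1) : ellipse c u v b ⊆ Metric.closedBall c 1 := by
  intro x hx
  rw [Metric.mem_closedBall, dist_eq_norm]
  rw [ellipse, Set.mem_ofPred_eq] at hx
  rw [norm_two, Real.sqrt_eq_one] at hu hv
  rw [inner_two] at huv hx
  rw [inner_two] at hx
  obtain ⟨y, hy⟩ : ∃ y, y = x - c := ⟨_, rfl⟩
  rw [← hy] at hx ⊢
  rw [norm_two, Real.sqrt_le_one]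
  have hdet : (u 0 * v 1 - u 1 * v 0) ^ 2 = 1 := by
    have : (u 0 * v 1 - u 1 * v 0) ^ 2 = (u 0 ^ 2 + u 1 ^ 2) * (v 0 ^ 2 + v 1 ^ 2)
      - (u 0 * v 0 + u 1 * v 1) ^ 2 := by ring
    rw [this, hu, hv, huv]; norm_num
  have hv0 : v 0 = - (u 0 * v 1 - u 1 * v 0) * u 1 := by
    have : - (u 0 * v 1 - u 1 * v 0) * u 1
      = (u 0 ^ 2 + u 1 ^ 2) * v 0 - u 0 * (u 0 * v 0 + u 1 * v 1) := by ring
    rw [this, hu, huv]; ring
  have hv1 : v 1 = (u 0 * v 1 - u 1 * v 0) * u 0 := by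
    have : (u 0 * v 1 - u 1 * v 0) * u 0
      = (u 0 ^ 2 + u 1 ^ 2) * v 1 - u 1 * (u 0 * v 0 + u 1 * v 1) := by ring
    rw [this, hu, huv]; ring
  obtain ⟨D, hD⟩ : ∃ D, D = u 0 * v 1 - u 1 * v 0 := ⟨_, rfl⟩
  rw [← hD] at hdet hv0 hv1
  have hq : (v 0 * y 0 + v 1 * y 1) ^ 2 = (u 0 * y 1 - u 1 * y 0) ^ 2 := by
    rw [hv0, hv1]
    have : (-D * u 1 * y 0 + D * u 0 * y 1) ^ 2 = D ^ 2 * (u 0 * y 1 - u 1 * y 0) ^ 2 := by ring
    rw [this, hdet, one_mul]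
  have hb2 : (v 0 * y 0 + v 1 * y 1) ^ 2 ≤ ((v 0 * y 0 + v 1 * y 1) / (b / 2)) ^ 2 := by
    rw [div_pow, le_div_iff₀ (by positivity)]
    have : (b / 2) ^ 2 ≤ 1 := by nlinarith
    nlinarith [sq_nonneg (v 0 * y 0 + v 1 * y 1)]
  have hsum : y 0 ^ 2 + y 1 ^ 2 = (u 0 * y 0 + u 1 * y 1) ^ 2 + (v 0 * y 0 + v 1 * y 1) ^ 2 := by
    rw [hq]
    have : (u 0 * y 0 + u 1 * y 1) ^ 2 + (u 0 * y 1 - u 1 * y 0) ^ 2
      = (u 0 ^ 2 + u 1 ^ 2) * (y 0 ^ 2 + y 1 ^ 2) := by ring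
    rw [this, hu, one_mul]
  have hp : (u 0 * y 0 + u 1 * y 1) ^ 2 ≤ ((u 0 * y 0 + u 1 * y 1) / (1 / 2)) ^ 2 := by
    have : ((u 0 * y 0 + u 1 * y 1) / (1 / 2)) ^ 2 = 4 * (u 0 * y 0 + u 1 * y 1) ^ 2 := by ring
    rw [this]
    nlinarith [sq_nonneg (u 0 * y 0 + u 1 * y 1)]
  linarith

theorem fam_data (p : ℤ × ℤ) (j : Fin 4) : volume (fam (p, j)) = ENNReal.ofReal
    (ar j / 4 * Real.pi) ∧ fam (p, j) ⊆ Metric.closedBall (P p.1 p.2) 2 := by
  obtain ⟨σ, τ, u, v, h1, h2, h3, h4, h5, h6⟩ := fam_form p j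
  rw [h6]
  refine ⟨vol_ellipse _ u v _ h3 h4 h5 (ar_pos j), ?_⟩
  refine (ellipse_sub _ u v _ h3 h4 h5 (ar_pos j) (ar_le j)).trans ?_
  refine Metric.closedBall_subset_closedBall' ?_
  rw [dist_eq_norm, P_sub]
  have e1 : (p.1 : ℝ) + σ - p.1 = σ := by ring
  have e2 : (p.2 : ℝ) + τ - p.2 = τ := by ring
  rw [e1, e2, norm_two, P_zero', P_one']
  have h7 : √((9 * √3 / 16 * (σ + τ / 2)) ^ 2 + (27 / 32 * τ) ^ 2) ≤ 1 := by
    rw [Real.sqrt_le_one]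
    have h4 : √3 ^ 2 = 3 := by rw [sq, s3]
    have e : (9 * √3 / 16 * (σ + τ / 2)) ^ 2 + (27 / 32 * τ) ^ 2
      = 243 / 256 * (σ ^ 2 + σ * τ + τ ^ 2) := by
      ring_nf; rw [h4]; ring
    rw [e]
    rw [abs_le] at h1 h2
    have h1' : σ ^ 2 ≤ 1 / 4 := by nlinarith
    have h2' : τ ^ 2 ≤ 1 / 4 := by nlinarith
    nlinarith [sq_nonneg (σ - τ)]
  linarith

end Pool.Agent.Helper85.Ell
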